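import Mathlib

/-!
# A centrally essential ring whose Jacobson radical is not centrally essential

Let `N = (ℤ/4) a ⊕ (ℤ/4) b ⊕ (ℤ/2) v` with the only nonzero product of generators `a * b = v`,
and let `R = ℤ ⊕ N` be the ring obtained from `N` by adjoining an identity.  Twice any element of
`N` is central in `R`, and twice a non-central element of `R` is never zero, so `R` is centrally
essential.  But `J(R) = N`, and the centre of `N` annihilates `N`.
-/

namespace Pool.Agent.Results.MP_0b5955_al.RadicalNotCE

/-- A ring, possibly without identity, is centrally essential if it is commutative or if for every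
non-central `a` there are nonzero central `x` and `y` with `a * x = y`. -/
def IsCentrallyEssential (R : Type*) [NonUnitalRing R] : Prop :=
  (∀ a b : R, a * b = b * a) ∨
    ∀ a : R, a ∉ Set.center R →
      ∃ x ∈ Set.center R, ∃ y ∈ Set.center R, x ≠ 0 ∧ y ≠ 0 ∧ a * x = y

/-- The Jacobson radical `J(R)` of a ring `R` with identity, regarded as a ring in its own right
(possibly without identity), with the multiplication of `R`. -/
def jacobsonRadical (R : Type*) [Ring R] : NonUnitalSubring R where
  carrier := (Ring.jacobson R : Set R)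
  add_mem' := fun ha hb => (Ring.jacobson R).add_mem ha hb
  zero_mem' := (Ring.jacobson R).zero_mem
  neg_mem' := fun ha => (Ring.jacobson R).neg_mem ha
  mul_mem' := fun {a _} _ hb => (Ring.jacobson R).mul_mem_left a hb

/-- The underlying additive group of the nilpotent ring `N`. -/
@[ext]
structure Nil where
  /-- coefficient of `a` -/
  a : ZMod 4
  /-- coefficient of `b` -/
  b : ZMod 4
  /-- coefficient of `v` -/
  v : ZMod 2

namespace Nil

/-- reduction from `ZMod 4` to `ZMod 2` -/
def red : ZMod 4 →+* ZMod 2 := ZMod.castHom (by decide : 2 ∣ 4) (ZMod 2)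

instance : Zero Nil := ⟨⟨0, 0, 0⟩⟩
instance : Add Nil := ⟨fun x y => ⟨x.a + y.a, x.b + y.b, x.v + y.v⟩⟩
instance : Neg Nil := ⟨fun x => ⟨-x.a, -x.b, -x.v⟩⟩
instance : Sub Nil := ⟨fun x y => ⟨x.a - y.a, x.b - y.b, x.v - y.v⟩⟩
instance : Mul Nil := ⟨fun x y => ⟨0, 0, red x.a * red y.b⟩⟩
instance : SMul ℕ Nil := ⟨fun n x => ⟨n • x.a, n • x.b, n • x.v⟩⟩
instance : SMul ℤ Nil := ⟨fun n x => ⟨n • x.a, n • x.b, n • x.v⟩⟩

@[simp] lemma zero_a : (0 : Nil).a = 0 := rfl
@[simp] lemma zero_b : (0 : Nil).b = 0 := rfl
@[simp] lemma zero_v : (0 : Nil).v = 0 := rfl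
@[simp] lemma add_a (x y : Nil) : (x + y).a = x.a + y.a := rfl
@[simp] lemma add_b (x y : Nil) : (x + y).b = x.b + y.b := rfl
@[simp] lemma add_v (x y : Nil) : (x + y).v = x.v + y.v := rfl
@[simp] lemma neg_a (x : Nil) : (-x).a = -x.a := rfl
@[simp] lemma neg_b (x : Nil) : (-x).b = -x.b := rfl
@[simp] lemma neg_v (x : Nil) : (-x).v = -x.v := rfl
@[simp] lemma sub_a (x y : Nil) : (x - y).a = x.a - y.a := rfl
@[simp] lemma sub_b (x y : Nil) : (x - y).b = x.b - y.b := rfl
@[simp] lemma sub_v (x y : Nil) : (x - y).v = x.v - y.v := rfl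
@[simp] lemma mul_a (x y : Nil) : (x * y).a = 0 := rfl
@[simp] lemma mul_b (x y : Nil) : (x * y).b = 0 := rfl
@[simp] lemma mul_v (x y : Nil) : (x * y).v = red x.a * red y.b := rfl
@[simp] lemma nsmul_a (n : ℕ) (x : Nil) : (n • x).a = n • x.a := rfl
@[simp] lemma nsmul_b (n : ℕ) (x : Nil) : (n • x).b = n • x.b := rfl
@[simp] lemma nsmul_v (n : ℕ) (x : Nil) : (n • x).v = n • x.v := rfl
@[simp] lemma zsmul_a (n : ℤ) (x : Nil) : (n • x).a = n • x.a := rfl
@[simp] lemma zsmul_b (n : ℤ) (x : Nil) : (n • x).b = n • x.b := rfl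
@[simp] lemma zsmul_v (n : ℤ) (x : Nil) : (n • x).v = n • x.v := rfl

/-- embedding into the product, used to transfer the additive group structure -/
def toProd (x : Nil) : ZMod 4 × ZMod 4 × ZMod 2 := (x.a, x.b, x.v)

lemma toProd_injective : Function.Injective toProd := by
  intro x y h
  simp only [toProd, Prod.mk.injEq] at h
  exact Nil.ext h.1 h.2.1 h.2.2

instance : AddCommGroup Nil :=
  toProd_injective.addCommGroup toProd rfl (fun _ _ => rfl) (fun _ => rfl) (fun _ _ => rfl)
    (fun _ _ => rfl) (fun _ _ => rfl)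

instance : NonUnitalRing Nil where
  left_distrib x y z := by
    ext <;> simp [mul_add]
  right_distrib x y z := by
    ext <;> simp [add_mul]
  zero_mul x := by
    ext <;> simp
  mul_zero x := by
    ext <;> simp
  mul_assoc x y z := by
    ext <;> simp

/-- twice anything in `N` is central in `N` and, in fact, annihilates `N` -/
lemma red_two_mul (x : ZMod 4) : red (x + x) = 0 := by
  have h : (2 : ZMod 2) = 0 := by decide
  rw [map_add, ← two_mul, h, zero_mul]

lemma red_eq_zero_iff (x : ZMod 4) : red x = 0 ↔ x + x = 0 := by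
  revert x
  decide

lemma add_self_v (x : ZMod 2) : x + x = 0 := by
  revert x
  decide

end Nil

/-- In an associative ring `Set.center` consists of the elements commuting with everything. -/
lemma mem_center_iff_comm {R : Type*} [NonUnitalRing R] {a : R} :
    a ∈ Set.center R ↔ ∀ b : R, a * b = b * a := by
  constructor
  · intro h b
    exact h.comm b
  · intro h
    exact ⟨fun b => h b, fun b c => (mul_assoc a b c).symm, fun b c => mul_assoc b c a⟩

/-- The counterexample ring: adjoin an identity (with integer multiples) to `N`. -/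
abbrev Ex : Type := Unitization ℤ Nil

/-- the element `n` of `Ex` for an integer `n` -/
abbrev sc (n : ℤ) : Ex := Unitization.inl n

lemma mem_center_iff (r : Ex) :
    r ∈ Set.center Ex ↔ r.snd.a + r.snd.a = 0 ∧ r.snd.b + r.snd.b = 0 := by
  refine (mem_center_iff_comm (R := Ex)).trans ?_
  constructor
  · intro h
    have h1 := congrArg (fun t : Ex => t.snd.v) (h ((⟨1, 0, 0⟩ : Nil) : Ex))
    have h2 := congrArg (fun t : Ex => t.snd.v) (h ((⟨0, 1, 0⟩ : Nil) : Ex))
    simp at h1 h2
    refine ⟨(Nil.red_eq_zero_iff _).1 ?_, (Nil.red_eq_zero_iff _).1 ?_⟩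
    · exact h2
    · exact h1.symm
  · rintro ⟨h1, h2⟩ g
    have e1 := (Nil.red_eq_zero_iff _).2 h1
    have e2 := (Nil.red_eq_zero_iff _).2 h2
    apply Unitization.ext
    · simp [mul_comm]
    · ext
      · simp; ring
      · simp; ring
      · simp [e1, e2]; ring

lemma mem_jacobson_iff (r : Ex) : r ∈ Ring.jacobson Ex ↔ r.fst = 0 := by
  constructor
  · intro h
    rw [← Ideal.jacobson_bot, Ideal.mem_jacobson_iff] at h
    have key : ∀ y : ℤ, ∃ z : ℤ, z * y * r.fst + z = 1 := by
      intro y
      obtain ⟨z, hz⟩ := h (sc y)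
      refine ⟨z.fst, ?_⟩
      have := congrArg (fun t : Ex => t.fst) (sub_eq_zero.1 (Ideal.mem_bot.1 hz))
      simpa using this
    by_contra hne
    obtain ⟨z1, hz1⟩ := key r.fst
    have hu : (r.fst * r.fst + 1) ∣ 1 := ⟨z1, by linarith⟩
    have hle := Int.le_of_dvd one_pos hu
    have hpos : 0 < r.fst * r.fst := by
      have := mul_self_nonneg r.fst
      have h' : r.fst * r.fst ≠ 0 := mul_ne_zero hne hne
      omega
    omega
  · intro h
    rw [← Ideal.jacobson_bot, Ideal.mem_jacobson_iff]
    intro y
    refine ⟨1 - y * r + (y * r) ^ 2, ?_⟩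
    rw [Ideal.mem_bot]
    have h3 : (y * r) ^ 3 = 0 := by
      have hf : (y * r).fst = 0 := by simp [h]
      generalize y * r = q at hf
      obtain ⟨n, rfl⟩ : ∃ n : Nil, q = (n : Ex) := ⟨q.snd, by
        apply Unitization.ext
        · simp [hf]
        · simp⟩
      rw [pow_succ, pow_two, ← Unitization.inr_mul, ← Unitization.inr_mul]
      rw [← Unitization.inr_zero ℤ]
      congr 1
      ext <;> simp
    have : (1 - y * r + (y * r) ^ 2) * y * r + (1 - y * r + (y * r) ^ 2) - 1 = (y * r) ^ 3 := by
      rw [mul_assoc _ y r]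
      generalize y * r = q
      noncomm_ring
    rw [this, h3]

theorem result : ∃ (R : Type) (_ : Ring R),
    IsCentrallyEssential R ∧ ¬ IsCentrallyEssential (jacobsonRadical R) := by
  refine ⟨Ex, inferInstance, Or.inr ?_, ?_⟩
  · intro r hr
    have htwo : sc 2 ∈ Set.center Ex := by
      rw [mem_center_iff]
      simp
    have h2r : r * sc 2 = r + r := by
      apply Unitization.ext
      · simp; ring
      · ext <;> simp <;> ring
    refine ⟨sc 2, htwo, r + r, ?_, ?_, ?_, h2r⟩
    · rw [mem_center_iff]
      constructor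
      · simp
        generalize r.snd.a = t
        revert t
        decide
      · simp
        generalize r.snd.b = t
        revert t
        decide
    · intro h0
      have := congrArg (fun t : Ex => t.fst) h0
      simp at this
    · intro h0
      apply hr
      rw [mem_center_iff]
      have := congrArg (fun t : Ex => t.snd) h0
      constructor
      · simpa using congrArg Nil.a this
      · simpa using congrArg Nil.b this
  · have memJ : ∀ n : Nil, (n : Ex) ∈ jacobsonRadical Ex := by
      intro n
      change (n : Ex) ∈ Ring.jacobson Ex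
      rw [mem_jacobson_iff]
      simp
    have eqJ : ∀ r : jacobsonRadical Ex, ∃ n : Nil, (r : Ex) = (n : Ex) := by
      intro r
      have hr : (r : Ex) ∈ Ring.jacobson Ex := r.2
      rw [mem_jacobson_iff] at hr
      refine ⟨(r : Ex).snd, ?_⟩
      apply Unitization.ext
      · simp [hr]
      · simp
    let A : jacobsonRadical Ex := ⟨((⟨1, 0, 0⟩ : Nil) : Ex), memJ _⟩
    let B : jacobsonRadical Ex := ⟨((⟨0, 1, 0⟩ : Nil) : Ex), memJ _⟩
    have hAB : A * B ≠ B * A := by
      intro h
      have := congrArg (fun t : jacobsonRadical Ex => (t : Ex).snd.v) h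
      simp [A, B] at this
    rintro (hcomm | hce)
    · exact hAB (hcomm A B)
    · have hA : A ∉ Set.center (jacobsonRadical Ex) := by
        intro h
        exact hAB (mem_center_iff_comm.1 h B)
      obtain ⟨x, hx, y, hy, hx0, hy0, hxy⟩ := hce A hA
      apply hy0
      rw [← hxy]
      obtain ⟨n, hn⟩ := eqJ x
      have h1 := congrArg (fun t : jacobsonRadical Ex => (t : Ex).snd.v)
        (mem_center_iff_comm.1 hx A)
      apply Subtype.ext
      have hv : Nil.red n.b = 0 := by
        simpa [A, hn] using h1.symm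
      change (A : Ex) * (x : Ex) = 0
      rw [hn]
      change (((⟨1, 0, 0⟩ : Nil) : Ex)) * (n : Ex) = 0
      rw [← Unitization.inr_mul, ← Unitization.inr_zero ℤ]
      congr 1
      ext <;> simp [hv]

end Pool.Agent.Results.MP_0b5955_al.RadicalNotCE
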